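import Pool.Agent.Helper53.Comp.GoalsC

/-!
# Packet C3: the inequality for sets of vertices of a tree
-/

namespace Mono

namespace Comp

namespace C3

open Finset

theorem oth_left (e : ℕ × ℕ) : Graph.oth e.1 e = e.2 := by simp [Graph.oth]

theorem oth_right {e : ℕ × ℕ} (h : e.1 < e.2) : Graph.oth e.2 e = e.1 := by
  have : e.1 ≠ e.2 := h.ne
  simp [Graph.oth, this]

theorem oth_of_fst {e : ℕ × ℕ} {p : ℕ} (h : e.1 = p) : Graph.oth p e = e.2 := by
  simp [Graph.oth, h]

theorem oth_of_snd {e : ℕ × ℕ} {p : ℕ} (hlt : e.1 < e.2) (h : e.2 = p) :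
    Graph.oth p e = e.1 := by
  have : e.1 ≠ p := by omega
  simp [Graph.oth, this]

/-- The number of edges at `p` with the other endpoint in `Q`. -/
def indeg (G : Graph) (Q : Finset ℕ) (p : ℕ) : ℕ :=
  ((Graph.edges G p).filter (fun e => Graph.oth p e ∈ Q)).card

theorem card_edges (G : Graph) (Q : Finset ℕ) (p : ℕ) :
    (Graph.edges G p).card = indeg G Q p + Graph.outdeg G Q p := by
  unfold indeg Graph.outdeg
  exact (Finset.card_filter_add_card_filter_not (s := Graph.edges G p)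
    (fun e => Graph.oth p e ∈ Q)).symm

/-- The edges inside `Q`. -/
def ins (G : Graph) (Q : Finset ℕ) : Finset (ℕ × ℕ) :=
  G.E.filter (fun e => e.1 ∈ Q ∧ e.2 ∈ Q)

theorem two_mul_ins_le (G : Graph) (Q : Finset ℕ) (hE : ∀ e ∈ G.E, e.1 < e.2) :
    2 * (ins G Q).card ≤ ∑ p ∈ Q, indeg G Q p := by
  have h1 : ∑ p ∈ Q, indeg G Q p = ∑ e ∈ G.E, ∑ p ∈ Q,
      (if (e.1 = p ∨ e.2 = p) ∧ Graph.oth p e ∈ Q then 1 else 0) := by
    rw [Finset.sum_comm]
    refine Finset.sum_congr rfl fun p _ => ?_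
    unfold indeg Graph.edges
    rw [Finset.filter_filter, Finset.card_filter]
  rw [h1]
  have h2 : ∑ e ∈ ins G Q, ∑ p ∈ Q,
      (if (e.1 = p ∨ e.2 = p) ∧ Graph.oth p e ∈ Q then 1 else 0) ≤ ∑ e ∈ G.E, ∑ p ∈ Q,
      (if (e.1 = p ∨ e.2 = p) ∧ Graph.oth p e ∈ Q then 1 else 0) :=
    Finset.sum_le_sum_of_subset (Finset.filter_subset _ _)
  refine le_trans ?_ h2
  have h3 : ∀ e ∈ ins G Q, 2 ≤ ∑ p ∈ Q,
      (if (e.1 = p ∨ e.2 = p) ∧ Graph.oth p e ∈ Q then 1 else 0) := by
    intro e he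
    obtain ⟨heE, he1, he2⟩ := Finset.mem_filter.mp he
    have hlt := hE e heE
    have hsub : ({e.1, e.2} : Finset ℕ) ⊆ Q := by
      intro a ha
      rcases Finset.mem_insert.mp ha with h | h
      · exact h ▸ he1
      · exact (Finset.mem_singleton.mp h) ▸ he2
    refine le_trans ?_ (Finset.sum_le_sum_of_subset hsub)
    rw [Finset.sum_pair hlt.ne, oth_left, oth_right hlt]
    simp [he1, he2]
  calc 2 * (ins G Q).card = ∑ _e ∈ ins G Q, 2 := by
        rw [Finset.sum_const, smul_eq_mul, mul_comm]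
    _ ≤ _ := Finset.sum_le_sum h3

end C3

open Finset in
theorem treeIneq : TreeIneq := by
  intro hT G hG Q hQ x hx hr
  obtain ⟨-, hE, -, -, hf⟩ := hT G hG
  obtain ⟨r, hr1, hr2⟩ := hr
  obtain ⟨f, hf1, hf2⟩ := hf r hr1
  have hle := C3.two_mul_ins_le G Q (fun e he => (hE e he).1)
  set Q2 : Finset ℕ := Q.filter (fun p => Graph.outdeg G Q p + x p = 0) with hQ2
  have hterm : ∀ p ∈ Q, (2 - ((Graph.edges G p).card : ℤ) - (x p : ℤ)) ≤
      (if Graph.outdeg G Q p + x p = 0 then 2 else 0) - (C3.indeg G Q p : ℤ) := by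
    intro p hp
    have h1 := C3.card_edges G Q p
    have h2 := hx p hp
    split_ifs with h
    · have : Graph.outdeg G Q p = 0 := by omega
      have h3 : x p = 0 := by omega
      push_cast [h1, this, h3]
      omega
    · push_cast [h1]
      omega
  have hsum : ∑ p ∈ Q, (2 - ((Graph.edges G p).card : ℤ) - (x p : ℤ)) ≤
      2 * (Q2.card : ℤ) - ∑ p ∈ Q, (C3.indeg G Q p : ℤ) := by
    refine (Finset.sum_le_sum hterm).trans (le_of_eq ?_)
    rw [Finset.sum_sub_distrib, ← Finset.sum_filter, Finset.sum_const, ← hQ2]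
    simp [mul_comm]
  have hcard : Q2.card ≤ (C3.ins G Q).card := by
    have hne : ∀ p ∈ Q2, p < G.size ∧ p ≠ r := by
      intro p hp
      obtain ⟨hp1, hp2⟩ := Finset.mem_filter.mp hp
      refine ⟨hQ p hp1, ?_⟩
      rintro rfl
      rcases hr2 with h | h
      · exact h hp1
      · omega
    refine Finset.card_le_card_of_injOn f ?_ ?_
    · intro p hp
      have hp' : p ∈ Q2 := hp
      obtain ⟨hp1, hp2⟩ := Finset.mem_filter.mp hp'
      obtain ⟨hps, hpr⟩ := hne p hp'
      obtain ⟨h1, h2⟩ := hf1 p hps hpr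
      have hout : Graph.outdeg G Q p = 0 := by omega
      have hmem : f p ∈ Graph.edges G p := Finset.mem_filter.mpr ⟨h1, h2⟩
      have hoth : Graph.oth p (f p) ∈ Q := by
        by_contra hcon
        have : f p ∈ (Graph.edges G p).filter (fun e => Graph.oth p e ∉ Q) :=
          Finset.mem_filter.mpr ⟨hmem, hcon⟩
        have h0 : ((Graph.edges G p).filter (fun e => Graph.oth p e ∉ Q)).card = 0 := hout
        rw [Finset.card_eq_zero] at h0
        rw [h0] at this
        exact absurd this (Finset.notMem_empty _)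
      have hlt := (hE _ h1).1
      have : f p ∈ C3.ins G Q := by
        refine Finset.mem_filter.mpr ⟨h1, ?_⟩
        rcases h2 with h | h
        · rw [C3.oth_of_fst h] at hoth
          refine ⟨?_, hoth⟩
          rw [h]
          exact hp1
        · rw [C3.oth_of_snd hlt h] at hoth
          refine ⟨hoth, ?_⟩
          rw [h]
          exact hp1
      exact this
    · intro p hp q hq hpq
      exact hf2 (hne p hp) (hne q hq) hpq
  have hle' : 2 * ((C3.ins G Q).card : ℤ) ≤ ∑ p ∈ Q, (C3.indeg G Q p : ℤ) := by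
    exact_mod_cast hle
  have hcard' : (Q2.card : ℤ) ≤ ((C3.ins G Q).card : ℤ) := by exact_mod_cast hcard
  linarith

end Comp

end Mono
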