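import Pool.Agent.Helper53.Comp.GoalsC

/-!
# Packet C4: the relations at a vertex; vertices with the same ratio
-/

namespace Mono

namespace Comp

namespace C4

open Finset

theorem oth_of_fst {e : ℕ × ℕ} {p : ℕ} (h : e.1 = p) : Graph.oth p e = e.2 := by
  simp [Graph.oth, h]

theorem oth_of_snd {e : ℕ × ℕ} {p : ℕ} (hlt : e.1 < e.2) (h : e.2 = p) :
    Graph.oth p e = e.1 := by
  have : e.1 ≠ p := by omega
  simp [Graph.oth, this]

/-- The term of a neighbour. -/
def t (N ν : ℕ) (y : ℕ × ℕ) : ℤ := (y.2 : ℤ) * N - (y.1 : ℤ) * ν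

theorem sum_lt (N ν : ℕ) (s : Multiset (ℕ × ℕ)) (hs : ∀ y ∈ s, t N ν y < N) :
    (s.map (t N ν)).sum + s.card ≤ s.card * N := by
  induction s using Multiset.induction_on with
  | empty => simp
  | cons a s ih =>
    have h1 := ih (fun y hy => hs y (Multiset.mem_cons_of_mem hy))
    have h2 := hs a (Multiset.mem_cons_self a s)
    rw [Multiset.map_cons, Multiset.sum_cons, Multiset.card_cons]
    push_cast
    nlinarith

theorem mem_nb (C : CurveGerm) (p : ℕ) (y : ℕ × ℕ) : y ∈ C.nb p ↔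
    (∃ e ∈ Graph.edges C.G p, y = (C.G.N (Graph.oth p e), C.G.ν (Graph.oth p e))) ∨
    ∃ b ∈ C.B p, y = (b, 1) := by
  unfold CurveGerm.nb
  rw [Multiset.mem_add, Multiset.mem_map, Multiset.mem_coe, List.mem_map]
  constructor
  · rintro (⟨e, he, rfl⟩ | ⟨b, hb, rfl⟩)
    · exact Or.inl ⟨e, he, rfl⟩
    · exact Or.inr ⟨b, hb, rfl⟩
  · rintro (⟨e, he, rfl⟩ | ⟨b, hb, rfl⟩)
    · exact Or.inl ⟨e, he, rfl⟩
    · exact Or.inr ⟨b, hb, rfl⟩

theorem list_sum (N ν : ℕ) (l : List ℕ) :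
    ((l.map (fun b => ((b, 1) : ℕ × ℕ))).map (t N ν)).sum = l.length * (N : ℤ) - l.sum * ν := by
  induction l with
  | nil => simp
  | cons b l ih =>
    simp only [List.map_cons, List.sum_cons, List.length_cons] at ih ⊢
    rw [ih]
    unfold t
    push_cast
    ring

theorem list_sum_fst (l : List ℕ) :
    ((l.map (fun b => ((b, 1) : ℕ × ℕ))).map Prod.fst).sum = l.sum := by
  induction l with
  | nil => simp
  | cons b l ih =>
    simp only [List.map_cons, List.sum_cons] at ih ⊢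
    rw [ih]

theorem nb_sum_fst (C : CurveGerm) (p : ℕ) : ((C.nb p).map Prod.fst).sum =
    ∑ e ∈ Graph.edges C.G p, C.G.N (Graph.oth p e) + (C.B p).sum := by
  unfold CurveGerm.nb
  rw [Multiset.map_add, Multiset.sum_add, Multiset.map_map, Multiset.map_coe, Multiset.sum_coe,
    list_sum_fst]
  rfl

theorem nb_sum_t (C : CurveGerm) (p : ℕ) (N ν : ℕ) : ((C.nb p).map (t N ν)).sum =
    ∑ e ∈ Graph.edges C.G p, ((C.G.ν (Graph.oth p e) : ℤ) * N - (C.G.N (Graph.oth p e) : ℤ) * ν) +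
      ((C.B p).length * (N : ℤ) - (C.B p).sum * ν) := by
  unfold CurveGerm.nb
  rw [Multiset.map_add, Multiset.sum_add, Multiset.map_map, Multiset.map_coe, Multiset.sum_coe,
    list_sum]
  rfl

theorem nb_card (C : CurveGerm) (p : ℕ) : (C.nb p).card = C.val p := by
  unfold CurveGerm.nb CurveGerm.val Graph.edges
  rw [Multiset.card_add, Multiset.card_map, Multiset.coe_card, List.length_map]
  rfl

end C4

open Finset in
theorem vertexRel : VertexRel := by
  intro hT hN C p hp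
  obtain ⟨-, hE, -, -, -⟩ := hT C.G C.blow
  obtain ⟨hpos, -, hlt, hκ⟩ := hN C.G C.blow
  obtain ⟨κ, hκ1, hκ2⟩ := hκ p hp
  have hcard := C4.nb_card C p
  have hval : C.val p = (Graph.edges C.G p).card + (C.B p).length := rfl
  have hNp := (hpos p hp).1
  have hνp := (hpos p hp).2
  have hBs := C.sum p hp
  have hsum1 : ((C.nb p).map Prod.fst).sum = κ * C.G.N p := by
    rw [C4.nb_sum_fst, hBs, hκ1]
  have hsum2 : ((C.nb p).map (C4.t (C.G.N p) (C.G.ν p))).sum =
      ((C.val p : ℤ) - 2) * C.G.N p := by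
    rw [C4.nb_sum_t, hBs, Finset.sum_sub_distrib, ← Finset.sum_mul, ← Finset.sum_mul]
    have h1 : (κ : ℤ) * C.G.N p = ∑ e ∈ Graph.edges C.G p, (C.G.N (Graph.oth p e) : ℤ) +
        C.G.c p := by exact_mod_cast hκ1
    have h2 : (κ : ℤ) * C.G.ν p + (Graph.edges C.G p).card =
        ∑ e ∈ Graph.edges C.G p, (C.G.ν (Graph.oth p e) : ℤ) + 2 := by exact_mod_cast hκ2
    have h3 : ∑ e ∈ Graph.edges C.G p, (C.G.ν (Graph.oth p e) : ℤ) =
        (κ : ℤ) * C.G.ν p + (Graph.edges C.G p).card - 2 := by linarith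
    have h4 : ∑ e ∈ Graph.edges C.G p, (C.G.N (Graph.oth p e) : ℤ) =
        (κ : ℤ) * C.G.N p - C.G.c p := by linarith
    rw [h3, h4, hval]
    push_cast
    ring
  have hmem : ∀ y ∈ C.nb p, 0 < y.1 ∧ 0 < y.2 ∧ C4.t (C.G.N p) (C.G.ν p) y < C.G.N p := by
    intro y hy
    rcases (C4.mem_nb C p y).mp hy with ⟨e, he, rfl⟩ | ⟨b, hb, rfl⟩
    · obtain ⟨heE, hep⟩ := Finset.mem_filter.mp he
      obtain ⟨he1, he2⟩ := hE e heE
      obtain ⟨hl1, hl2⟩ := hlt e heE
      rcases hep with h | h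
      · rw [C4.oth_of_fst h]
        have hq := hpos e.2 he2
        refine ⟨hq.1, hq.2, ?_⟩
        unfold C4.t
        rw [h] at hl1
        have : (C.G.ν e.2 : ℤ) * C.G.N p < C.G.N p + C.G.N e.2 * C.G.ν p := by exact_mod_cast hl1
        simp only
        linarith
      · rw [C4.oth_of_snd he1 h]
        have hq := hpos e.1 (he1.trans he2)
        refine ⟨hq.1, hq.2, ?_⟩
        unfold C4.t
        rw [h] at hl2
        have : (C.G.ν e.1 : ℤ) * C.G.N p < C.G.N p + C.G.N e.1 * C.G.ν p := by exact_mod_cast hl2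
        simp only
        linarith
    · have hb0 := C.pos p hp b hb
      refine ⟨hb0, Nat.one_pos, ?_⟩
      unfold C4.t
      have : (0 : ℤ) < (b : ℤ) * C.G.ν p := by exact_mod_cast Nat.mul_pos hb0 hνp
      push_cast
      linarith
  have hNp' : (0 : ℤ) < C.G.N p := by exact_mod_cast hNp
  have hvalpos : 0 < C.val p := by
    rcases Nat.eq_zero_or_pos (C.val p) with h | h
    · exfalso
      rw [← hcard, Multiset.card_eq_zero] at h
      rw [h, Multiset.map_zero, Multiset.sum_zero, ← hcard, h, Multiset.card_zero] at hsum2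
      push_cast at hsum2
      linarith
    · exact h
  refine ⟨hcard, hvalpos, ⟨κ, hsum1⟩, ?_, hsum2⟩
  intro y hy
  obtain ⟨h1, h2, h3⟩ := hmem y hy
  obtain ⟨s, hs⟩ := Multiset.exists_cons_of_mem hy
  have hs1 := C4.sum_lt (C.G.N p) (C.G.ν p) s (fun z hz => (hmem z (by
    rw [hs]
    exact Multiset.mem_cons_of_mem hz)).2.2)
  have hcs : s.card + 1 = C.val p := by rw [← hcard, hs, Multiset.card_cons]
  have hcs' : (s.card : ℤ) = C.val p - 1 := by
    have : (s.card : ℤ) + 1 = C.val p := by exact_mod_cast hcs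
    linarith
  have hsum3 : C4.t (C.G.N p) (C.G.ν p) y + (s.map (C4.t (C.G.N p) (C.G.ν p))).sum =
      ((C.val p : ℤ) - 2) * C.G.N p := by
    rw [← hsum2, hs, Multiset.map_cons, Multiset.sum_cons]
  refine ⟨h1, h2, h3, ?_, ?_⟩
  · intro hv
    have hv' : (2 : ℤ) ≤ C.val p := by exact_mod_cast hv
    have : -(C.G.N p : ℤ) < C4.t (C.G.N p) (C.G.ν p) y := by
      rw [hcs'] at hs1
      nlinarith
    exact this
  · intro hv
    have hs0 : s = 0 := by
      rw [← Multiset.card_eq_zero]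
      omega
    rw [hs0, Multiset.map_zero, Multiset.sum_zero, hv] at hsum3
    have : C4.t (C.G.N p) (C.G.ν p) y = -(C.G.N p : ℤ) := by
      push_cast at hsum3
      linarith
    exact this

open Finset in
theorem sameRatio : SameRatio := by
  intro hT hN hV C p z hp hval hz
  obtain ⟨-, hE, -, -, -⟩ := hT C.G C.blow
  obtain ⟨hpos, -, -, -⟩ := hN C.G C.blow
  obtain ⟨-, -, -, hnb, -⟩ := hV hT hN C p hp
  have hNp := (hpos p hp).1
  have hNpC : (C.G.N p : ℂ) ≠ 0 := by exact_mod_cast hNp.ne'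
  have hfirst : ∀ y ∈ C.nb p, Complex.exp (2 * Real.pi * Complex.I * z) ^ y.1 = 1 →
      (y.1 : ℂ) * z + y.2 = 0 := by
    intro y hy hexp
    obtain ⟨-, -, h3, h4, -⟩ := hnb y hy
    have h4' := h4 hval
    rw [← Complex.exp_nat_mul, Complex.exp_eq_one_iff] at hexp
    obtain ⟨n, hn⟩ := hexp
    have h2pi : (2 * Real.pi * Complex.I : ℂ) ≠ 0 := Complex.two_pi_I_ne_zero
    have hyz : (y.1 : ℂ) * z = n := by
      have : (2 * Real.pi * Complex.I : ℂ) * ((y.1 : ℂ) * z) = (2 * Real.pi * Complex.I) * n := by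
        linear_combination hn
      exact mul_left_cancel₀ h2pi this
    have hint : (y.2 : ℤ) * C.G.N p - (y.1 : ℤ) * C.G.ν p = ((y.2 : ℤ) + n) * C.G.N p := by
      have : (((y.2 : ℤ) * C.G.N p - (y.1 : ℤ) * C.G.ν p : ℤ) : ℂ) =
          ((((y.2 : ℤ) + n) * C.G.N p : ℤ) : ℂ) := by
        push_cast
        linear_combination (C.G.N p : ℂ) * hyz - (y.1 : ℂ) * hz
      exact_mod_cast this
    rw [hint] at h3 h4'
    have hNp' : (0 : ℤ) < C.G.N p := by exact_mod_cast hNp
    have h5 : (y.2 : ℤ) + n < 1 := by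
      by_contra hcon
      push Not at hcon
      nlinarith
    have h6 : -1 < (y.2 : ℤ) + n := by
      by_contra hcon
      push Not at hcon
      nlinarith
    have h7 : (y.2 : ℤ) + n = 0 := by omega
    have h8 : (y.2 : ℂ) + n = 0 := by exact_mod_cast h7
    linear_combination hyz + h8
  refine ⟨hfirst, ?_⟩
  intro e he hexp
  obtain ⟨heE, hep⟩ := Finset.mem_filter.mp he
  obtain ⟨he1, he2⟩ := hE e heE
  have hzq := hfirst _ ((C4.mem_nb C p _).mpr (Or.inl ⟨e, he, rfl⟩)) hexp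
  simp only at hzq
  have hqs : Graph.oth p e < C.G.size := by
    rcases hep with h | h
    · rw [C4.oth_of_fst h]; exact he2
    · rw [C4.oth_of_snd he1 h]; exact he1.trans he2
  have hqe : e ∈ Graph.edges C.G (Graph.oth p e) := by
    refine Finset.mem_filter.mpr ⟨heE, ?_⟩
    rcases hep with h | h
    · rw [C4.oth_of_fst h]; exact Or.inr rfl
    · rw [C4.oth_of_snd he1 h]; exact Or.inl rfl
  have hqp : Graph.oth (Graph.oth p e) e = p := by
    rcases hep with h | h
    · rw [C4.oth_of_fst h, C4.oth_of_snd he1 rfl]; exact h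
    · rw [C4.oth_of_snd he1 h, C4.oth_of_fst rfl]; exact h
  obtain ⟨-, hq0, -, hqnb, -⟩ := hV hT hN C _ hqs
  by_contra hcon
  have hq1 : C.val (Graph.oth p e) = 1 := by omega
  have hmem := (C4.mem_nb C (Graph.oth p e) _).mpr (Or.inl ⟨e, hqe, rfl⟩)
  have h := (hqnb _ hmem).2.2.2.2 hq1
  rw [hqp] at h
  simp only at h
  have hNq := (hpos _ hqs).1
  have hC : (((C.G.ν p : ℤ) * C.G.N (Graph.oth p e) - (C.G.N p : ℤ) * C.G.ν (Graph.oth p e) : ℤ) : ℂ)
      = ((-(C.G.N (Graph.oth p e) : ℤ) : ℤ) : ℂ) := by rw [h]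
  push_cast at hC
  have h0 : (C.G.N (Graph.oth p e) : ℂ) = 0 := by
    linear_combination hC - (C.G.N (Graph.oth p e) : ℂ) * hz + (C.G.N p : ℂ) * hzq
  have : C.G.N (Graph.oth p e) = 0 := by exact_mod_cast h0
  omega

end Comp

end Mono
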