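import Pool.Agent.Helper53.Comp.GoalsC

/-!
# Packet C5: poles of the twisted zeta functions of a plane curve germ
-/

namespace Mono

namespace Comp

namespace C5

open Finset Polynomial

/-! ### Rational functions which are regular at `z` -/

/-- `f` is regular at `z`. -/
def Reg (z : ℂ) (f : RatFunc ℂ) : Prop :=
  ∃ a b : ℂ[X], b.eval z ≠ 0 ∧ f = algebraMap ℂ[X] (RatFunc ℂ) a / algebraMap ℂ[X] (RatFunc ℂ) b

theorem Reg.denom_ne {z : ℂ} {f : RatFunc ℂ} (h : Reg z f) : f.denom.eval z ≠ 0 := by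
  obtain ⟨a, b, hb, rfl⟩ := h
  intro h0
  obtain ⟨c, hc⟩ := RatFunc.denom_div_dvd a b
  rw [hc, eval_mul, h0, zero_mul] at hb
  exact hb rfl

theorem map_ne {z : ℂ} {b : ℂ[X]} (hb : b.eval z ≠ 0) : algebraMap ℂ[X] (RatFunc ℂ) b ≠ 0 := by
  intro h
  have : b = 0 := (map_eq_zero_iff _ (RatFunc.algebraMap_injective ℂ)).mp h
  rw [this] at hb
  simp at hb

theorem Reg.zero (z : ℂ) : Reg z 0 := ⟨0, 1, by simp, by simp⟩

theorem Reg.add {z : ℂ} {f g : RatFunc ℂ} (hf : Reg z f) (hg : Reg z g) : Reg z (f + g) := by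
  obtain ⟨a, b, hb, rfl⟩ := hf
  obtain ⟨c, d, hd, rfl⟩ := hg
  refine ⟨a * d + b * c, b * d, by rw [eval_mul]; exact mul_ne_zero hb hd, ?_⟩
  rw [div_add_div _ _ (map_ne hb) (map_ne hd), map_add, map_mul, map_mul, map_mul]

theorem Reg.mul {z : ℂ} {f g : RatFunc ℂ} (hf : Reg z f) (hg : Reg z g) : Reg z (f * g) := by
  obtain ⟨a, b, hb, rfl⟩ := hf
  obtain ⟨c, d, hd, rfl⟩ := hg
  refine ⟨a * c, b * d, by rw [eval_mul]; exact mul_ne_zero hb hd, ?_⟩
  rw [div_mul_div_comm, map_mul, map_mul]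

theorem Reg.const (z : ℂ) (c : ℂ) : Reg z (RatFunc.C c) :=
  ⟨C c, 1, by simp, by simp [RatFunc.algebraMap_C]⟩

/-- The linear form of the numerical data `(a, b)`. -/
noncomputable def L (y : ℕ × ℕ) : RatFunc ℂ :=
  RatFunc.C (y.1 : ℂ) * RatFunc.X + RatFunc.C (y.2 : ℂ)

theorem Reg.inv {z : ℂ} {y : ℕ × ℕ} (h : (y.1 : ℂ) * z + y.2 ≠ 0) : Reg z (1 / L y) := by
  refine ⟨1, C (y.1 : ℂ) * X + C (y.2 : ℂ), by simpa using h, ?_⟩
  unfold L
  simp [RatFunc.algebraMap_X]

theorem L_ne {y : ℕ × ℕ} (h : 0 < y.2) : L y ≠ 0 := by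
  have h1 : L y = algebraMap ℂ[X] (RatFunc ℂ) (C (y.1 : ℂ) * X + C (y.2 : ℂ)) := by
    unfold L
    simp [RatFunc.algebraMap_X]
  rw [h1]
  refine map_ne (z := 0) ?_
  simp only [eval_add, eval_mul, eval_C, eval_X, mul_zero, zero_add]
  exact_mod_cast h.ne'

theorem Reg.sum {ι : Type*} {z : ℂ} (s : Finset ι) (f : ι → RatFunc ℂ)
    (h : ∀ i ∈ s, Reg z (f i)) : Reg z (∑ i ∈ s, f i) := by
  classical
  induction s using Finset.induction_on with
  | empty => simpa using Reg.zero z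
  | insert a s ha ih =>
    rw [Finset.sum_insert ha]
    exact (h a (Finset.mem_insert_self a s)).add
      (ih (fun i hi => h i (Finset.mem_insert_of_mem hi)))

theorem Reg.listSum {ι : Type*} {z : ℂ} (l : List ι) (f : ι → RatFunc ℂ)
    (h : ∀ i ∈ l, Reg z (f i)) : Reg z ((l.map f).sum) := by
  induction l with
  | nil => simpa using Reg.zero z
  | cons a l ih =>
    rw [List.map_cons, List.sum_cons]
    exact (h a (List.mem_cons_self ..)).add (ih (fun i hi => h i (List.mem_cons_of_mem _ hi)))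

/-! ### The graph -/

theorem oth_of_fst {e : ℕ × ℕ} {p : ℕ} (h : e.1 = p) : Graph.oth p e = e.2 := by
  simp [Graph.oth, h]

theorem oth_of_snd {e : ℕ × ℕ} {p : ℕ} (hlt : e.1 < e.2) (h : e.2 = p) :
    Graph.oth p e = e.1 := by
  have : e.1 ≠ p := by omega
  simp [Graph.oth, this]

theorem mem_nb (C : CurveGerm) (p : ℕ) (y : ℕ × ℕ) : y ∈ C.nb p ↔
    (∃ e ∈ Graph.edges C.G p, y = (C.G.N (Graph.oth p e), C.G.ν (Graph.oth p e))) ∨
    ∃ b ∈ C.B p, y = (b, 1) := by
  unfold CurveGerm.nb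
  rw [Multiset.mem_add, Multiset.mem_map, Multiset.mem_coe, List.mem_map]
  constructor
  · rintro (⟨e, he, rfl⟩ | ⟨b, hb, rfl⟩)
    · exact Or.inl ⟨e, he, rfl⟩
    · exact Or.inr ⟨b, hb, rfl⟩
  · rintro (⟨e, he, rfl⟩ | ⟨b, hb, rfl⟩)
    · exact Or.inl ⟨e, he, rfl⟩
    · exact Or.inr ⟨b, hb, rfl⟩

/-- The vertices with a pole at `z`. -/
def InR (C : CurveGerm) (e : ℕ) (z : ℂ) (p : ℕ) : Prop :=
  p < C.G.size ∧ e ∣ C.G.N p ∧ (C.G.N p : ℂ) * z + C.G.ν p = 0

/-- The term of the neighbour `y` of `p`. -/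
noncomputable def term (C : CurveGerm) (e p : ℕ) (y : ℕ × ℕ) : RatFunc ℂ :=
  if e ∣ y.1 then 1 / (L (C.G.N p, C.G.ν p)) * (1 / L y) else 0

section

variable (C : CurveGerm) (e : ℕ) (z : ℂ)

/-- The value of the linear form of a neighbour. -/
theorem val_t {N ν : ℕ} {y : ℕ × ℕ} (hz : (N : ℂ) * z + ν = 0) :
    (((y.2 : ℤ) * N - (y.1 : ℤ) * ν : ℤ) : ℂ) = (N : ℂ) * ((y.1 : ℂ) * z + y.2) := by
  push_cast
  linear_combination (-(y.1 : ℂ)) * hz

theorem adj (hT : BlowTree) (hN : BlowNum) (hV : VertexRel)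
    (h3 : ∀ p < C.G.size, e ∣ C.G.N p → (C.G.N p : ℂ) * z + C.G.ν p = 0 → C.val p ≤ 2)
    (hbr : ∀ p < C.G.size, ∀ b ∈ C.B p, e ∣ b → (b : ℂ) * z + 1 ≠ 0)
    (p : ℕ) (hp : InR C e z p) (f : ℕ × ℕ) (hf : f ∈ Graph.edges C.G p)
    (hq : InR C e z (Graph.oth p f)) :
    C.B p = [] ∧ ∀ g ∈ Graph.edges C.G p, InR C e z (Graph.oth p g) := by
  obtain ⟨-, hE, -, -, -⟩ := hT C.G C.blow
  obtain ⟨hpos, -, -, -⟩ := hN C.G C.blow
  obtain ⟨hp1, hp2, hp3⟩ := hp
  obtain ⟨hcard, hval0, ⟨κ, hκ⟩, hnb, hsum⟩ := hV hT hN C p hp1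
  have hNp := (hpos p hp1).1
  have hval := h3 p hp1 hp2 hp3
  set y : ℕ × ℕ := (C.G.N (Graph.oth p f), C.G.ν (Graph.oth p f)) with hy
  have hymem : y ∈ C.nb p := (mem_nb C p y).mpr (Or.inl ⟨f, hf, rfl⟩)
  have hyz : (y.1 : ℂ) * z + y.2 = 0 := hq.2.2
  have hyt : (y.2 : ℤ) * C.G.N p - (y.1 : ℤ) * C.G.ν p = 0 := by
    have := val_t z (y := y) hp3
    rw [hyz, mul_zero] at this
    exact_mod_cast this
  have hval2 : C.val p = 2 := by
    by_contra hcon
    have h1 : C.val p = 1 := by omega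
    have h2 := (hnb y hymem).2.2.2.2 h1
    rw [hyt] at h2
    have : (0 : ℤ) < C.G.N p := by exact_mod_cast hNp
    linarith
  obtain ⟨s, hs⟩ := Multiset.exists_cons_of_mem hymem
  have hcs : s.card = 1 := by
    have : s.card + 1 = 2 := by rw [← hval2, ← hcard, hs, Multiset.card_cons]
    omega
  obtain ⟨y', hy'⟩ := Multiset.card_eq_one.mp hcs
  rw [hy'] at hs
  have hall : ∀ w ∈ C.nb p, e ∣ w.1 ∧ (w.1 : ℂ) * z + w.2 = 0 := by
    have hy'1 : e ∣ y'.1 := by
      rw [hs] at hκ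
      simp only [Multiset.map_cons, Multiset.sum_cons, Multiset.map_singleton,
        Multiset.sum_singleton] at hκ
      have h1 : e ∣ y.1 + y'.1 := by
        rw [hκ]
        exact Dvd.dvd.mul_left hp2 κ
      exact (Nat.dvd_add_right hq.2.1).mp h1
    have hy'2 : (y'.1 : ℂ) * z + y'.2 = 0 := by
      rw [hs, hval2] at hsum
      simp only [Multiset.map_cons, Multiset.sum_cons, Multiset.map_singleton,
        Multiset.sum_singleton] at hsum
      have h1 : (y'.2 : ℤ) * C.G.N p - (y'.1 : ℤ) * C.G.ν p = 0 := by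
        push_cast at hsum
        linarith
      have h2 := val_t z (y := y') hp3
      rw [h1] at h2
      have h3 : (C.G.N p : ℂ) ≠ 0 := by exact_mod_cast hNp.ne'
      have h4 : (C.G.N p : ℂ) * ((y'.1 : ℂ) * z + y'.2) = 0 := by
        rw [← h2]
        simp
      exact (mul_eq_zero.mp h4).resolve_left h3
    intro w hw
    rw [hs] at hw
    rcases Multiset.mem_cons.mp hw with h | h
    · rw [h]
      exact ⟨hq.2.1, hyz⟩
    · rw [Multiset.mem_singleton.mp h]
      exact ⟨hy'1, hy'2⟩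
  constructor
  · by_contra hne
    obtain ⟨b, hb⟩ := List.exists_mem_of_ne_nil _ hne
    obtain ⟨h1, h2⟩ := hall (b, 1) ((mem_nb C p _).mpr (Or.inr ⟨b, hb, rfl⟩))
    refine hbr p hp1 b hb h1 ?_
    simpa using h2
  · intro g hg
    obtain ⟨h1, h2⟩ := hall _ ((mem_nb C p _).mpr (Or.inl ⟨g, hg, rfl⟩))
    refine ⟨?_, h1, h2⟩
    obtain ⟨hgE, hgp⟩ := Finset.mem_filter.mp hg
    obtain ⟨hg1, hg2⟩ := hE g hgE
    rcases hgp with h | h
    · rw [oth_of_fst h]; exact hg2
    · rw [oth_of_snd hg1 h]; exact hg1.trans hg2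

theorem noadj (hT : BlowTree) (hN : BlowNum) (hV : VertexRel)
    (h3 : ∀ p < C.G.size, e ∣ C.G.N p → (C.G.N p : ℂ) * z + C.G.ν p = 0 → C.val p ≤ 2)
    (hbr : ∀ p < C.G.size, ∀ b ∈ C.B p, e ∣ b → (b : ℂ) * z + 1 ≠ 0)
    (p : ℕ) (hp : InR C e z p) (f : ℕ × ℕ) (hf : f ∈ Graph.edges C.G p) :
    ¬ InR C e z (Graph.oth p f) := by
  intro hq
  obtain ⟨-, hE, -, hconn, -⟩ := hT C.G C.blow
  obtain ⟨hpos, ⟨r, hr, hcr⟩, -, -⟩ := hN C.G C.blow
  have hadj := adj C e z hT hN hV h3 hbr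
  have hall := hconn {p | InR C e z p ∧ ∃ f ∈ Graph.edges C.G p, InR C e z (Graph.oth p f)}
    ⟨p, ⟨hp, f, hf, hq⟩, hp.1⟩ (by
      intro g hg
      obtain ⟨hg1, hg2⟩ := hE g hg
      have he1 : g ∈ Graph.edges C.G g.1 := Finset.mem_filter.mpr ⟨hg, Or.inl rfl⟩
      have he2 : g ∈ Graph.edges C.G g.2 := Finset.mem_filter.mpr ⟨hg, Or.inr rfl⟩
      have ho1 : Graph.oth g.1 g = g.2 := oth_of_fst rfl
      have ho2 : Graph.oth g.2 g = g.1 := oth_of_snd hg1 rfl
      constructor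
      · rintro ⟨h1, f', hf', h2⟩
        have h4 := (hadj g.1 h1 f' hf' h2).2 g he1
        rw [ho1] at h4
        exact ⟨h4, g, he2, by rw [ho2]; exact h1⟩
      · rintro ⟨h1, f', hf', h2⟩
        have h4 := (hadj g.2 h1 f' hf' h2).2 g he2
        rw [ho2] at h4
        exact ⟨h4, g, he1, by rw [ho1]; exact h1⟩)
  obtain ⟨h1, f', hf', h2⟩ := hall r hr
  have h4 := (hadj r h1 f' hf' h2).1
  have h5 := C.sum r hr
  rw [h4] at h5
  simp at h5
  omega

theorem reg_group (hT : BlowTree) (hN : BlowNum) (hV : VertexRel)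
    (h3 : ∀ p < C.G.size, e ∣ C.G.N p → (C.G.N p : ℂ) * z + C.G.ν p = 0 → C.val p ≤ 2)
    (hbr : ∀ p < C.G.size, ∀ b ∈ C.B p, e ∣ b → (b : ℂ) * z + 1 ≠ 0)
    (p : ℕ) (hp : InR C e z p) :
    Reg z (RatFunc.C ((2 - (C.val p : ℤ) : ℤ) : ℂ) * (1 / L (C.G.N p, C.G.ν p)) +
      ((C.nb p).map (term C e p)).sum) := by
  have hno := noadj C e z hT hN hV h3 hbr p hp
  obtain ⟨-, hE, -, -, -⟩ := hT C.G C.blow
  obtain ⟨hpos, -, -, -⟩ := hN C.G C.blow
  obtain ⟨hp1, hp2, hp3⟩ := hp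
  obtain ⟨hcard, hval0, ⟨κ, hκ⟩, hnb, hsum⟩ := hV hT hN C p hp1
  have hNp := (hpos p hp1).1
  have hνp := (hpos p hp1).2
  have hval := h3 p hp1 hp2 hp3
  have hNpC : (C.G.N p : ℂ) ≠ 0 := by exact_mod_cast hNp.ne'
  have hLp : L (C.G.N p, C.G.ν p) ≠ 0 := L_ne hνp
  have hLp' : L (C.G.N p, C.G.ν p) = RatFunc.C (C.G.N p : ℂ) * (RatFunc.X - RatFunc.C z) := by
    unfold L
    have : (C.G.ν p : ℂ) = -((C.G.N p : ℂ) * z) := by linear_combination hp3
    simp only
    rw [this, map_neg, map_mul]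
    ring
  have hXz : (RatFunc.X - RatFunc.C z : RatFunc ℂ) ≠ 0 := by
    intro h
    rw [h, mul_zero] at hLp'
    exact hLp hLp'
  have hCN : RatFunc.C (C.G.N p : ℂ) ≠ 0 := by
    intro h
    rw [h, zero_mul] at hLp'
    exact hLp hLp'
  rcases (show C.val p = 1 ∨ C.val p = 2 by omega) with hv | hv
  · -- one neighbour
    rw [hv] at hcard
    obtain ⟨y, hy⟩ := Multiset.card_eq_one.mp hcard
    have hymem : y ∈ C.nb p := by rw [hy]; exact Multiset.mem_singleton_self y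
    obtain ⟨hy1, hy2, -, -, hy5⟩ := hnb y hymem
    have hy6 := hy5 hv
    have hey : e ∣ y.1 := by
      rw [hy] at hκ
      simp only [Multiset.map_singleton, Multiset.sum_singleton] at hκ
      rw [hκ]
      exact Dvd.dvd.mul_left hp2 κ
    have hyz : (y.1 : ℂ) * z + y.2 = -1 := by
      have h2 := val_t z (y := y) hp3
      rw [hy6] at h2
      have h4 : (C.G.N p : ℂ) * (((y.1 : ℂ) * z + y.2) + 1) = 0 := by
        rw [mul_add, ← h2]
        push_cast
        ring
      have h5 := (mul_eq_zero.mp h4).resolve_left hNpC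
      linear_combination h5
    have hLy : L y ≠ 0 := L_ne hy2
    have hLy' : L y + 1 = RatFunc.C (y.1 : ℂ) * (RatFunc.X - RatFunc.C z) := by
      unfold L
      have : (y.2 : ℂ) = -1 - (y.1 : ℂ) * z := by linear_combination hyz
      rw [this, map_sub, map_neg, map_mul, map_one]
      ring
    have key : RatFunc.C ((2 - (C.val p : ℤ) : ℤ) : ℂ) * (1 / L (C.G.N p, C.G.ν p)) +
        ((C.nb p).map (term C e p)).sum =
        RatFunc.C (y.1 : ℂ) * RatFunc.C ((C.G.N p : ℂ)⁻¹) * (1 / L y) := by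
      rw [hy, Multiset.map_singleton, Multiset.sum_singleton, hv]
      unfold term
      rw [if_pos hey]
      have h1 : RatFunc.C ((2 - ((1 : ℕ) : ℤ) : ℤ) : ℂ) = (1 : RatFunc ℂ) := by
        norm_num
      rw [h1, map_inv₀]
      have h2 : 1 * (1 / L (C.G.N p, C.G.ν p)) + 1 / L (C.G.N p, C.G.ν p) * (1 / L y) =
          (L y + 1) / (L (C.G.N p, C.G.ν p) * L y) := by
        field_simp
      rw [h2, hLy', hLp']
      field_simp
    rw [key]
    refine ((Reg.const z _).mul (Reg.const z _)).mul (Reg.inv ?_)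
    rw [hyz]
    norm_num
  · -- two neighbours
    rw [hv] at hcard
    obtain ⟨y, y', hy⟩ := Multiset.card_eq_two.mp hcard
    have hymem : y ∈ C.nb p := by rw [hy]; simp
    have hy'mem : y' ∈ C.nb p := by rw [hy]; simp
    have h0 : RatFunc.C ((2 - ((2 : ℕ) : ℤ) : ℤ) : ℂ) = (0 : RatFunc ℂ) := by
      norm_num
    have hsumy : y.1 + y'.1 = κ * C.G.N p := by
      rw [hy] at hκ
      simpa using hκ
    have hdvd : e ∣ y.1 + y'.1 := by
      rw [hsumy]
      exact Dvd.dvd.mul_left hp2 κ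
    rw [hv, h0, zero_mul, zero_add, hy]
    simp only [Multiset.insert_eq_cons, Multiset.map_cons, Multiset.map_singleton,
      Multiset.sum_cons, Multiset.sum_singleton]
    by_cases hey : e ∣ y.1
    · have hey' : e ∣ y'.1 := (Nat.dvd_add_right hey).mp hdvd
      have hnz : ∀ w ∈ C.nb p, e ∣ w.1 → (w.1 : ℂ) * z + w.2 ≠ 0 := by
        intro w hw hew hwz
        rcases (mem_nb C p w).mp hw with ⟨g, hg, rfl⟩ | ⟨b, hb, rfl⟩
        · refine hno g hg ⟨?_, hew, hwz⟩
          obtain ⟨hgE, hgp⟩ := Finset.mem_filter.mp hg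
          obtain ⟨hg1, hg2⟩ := hE g hgE
          rcases hgp with h | h
          · rw [oth_of_fst h]; exact hg2
          · rw [oth_of_snd hg1 h]; exact hg1.trans hg2
        · refine hbr p hp1 b hb hew ?_
          simpa using hwz
      have hy2 := (hnb y hymem).2.1
      have hy'2 := (hnb y' hy'mem).2.1
      have hLy : L y ≠ 0 := L_ne hy2
      have hLy' : L y' ≠ 0 := L_ne hy'2
      have hzz : ((y.1 : ℂ) * z + y.2) + ((y'.1 : ℂ) * z + y'.2) = 0 := by
        rw [hy, hv] at hsum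
        simp only [Multiset.insert_eq_cons, Multiset.map_cons, Multiset.map_singleton,
          Multiset.sum_cons, Multiset.sum_singleton] at hsum
        have h1 := val_t z (y := y) hp3
        have h2 := val_t z (y := y') hp3
        have h4 : (C.G.N p : ℂ) * (((y.1 : ℂ) * z + y.2) + ((y'.1 : ℂ) * z + y'.2)) = 0 := by
          rw [mul_add, ← h1, ← h2, ← Int.cast_add, hsum]
          push_cast
          ring
        exact (mul_eq_zero.mp h4).resolve_left hNpC
      have hLL : L y + L y' = RatFunc.C ((y.1 : ℂ) + y'.1) * (RatFunc.X - RatFunc.C z) := by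
        unfold L
        have : (y.2 : ℂ) = -((y.1 : ℂ) + y'.1) * z - y'.2 := by linear_combination hzz
        rw [this]
        simp only [map_sub, map_neg, map_mul, map_add]
        ring
      have key : term C e p y + term C e p y' =
          RatFunc.C ((y.1 : ℂ) + y'.1) * RatFunc.C ((C.G.N p : ℂ)⁻¹) * (1 / L y) * (1 / L y') := by
        unfold term
        rw [if_pos hey, if_pos hey', map_inv₀]
        have h2 : 1 / L (C.G.N p, C.G.ν p) * (1 / L y) + 1 / L (C.G.N p, C.G.ν p) * (1 / L y') =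
            (L y + L y') / (L (C.G.N p, C.G.ν p) * L y * L y') := by
          field_simp
          ring
        rw [h2, hLL, hLp']
        field_simp
      rw [key]
      exact (((Reg.const z _).mul (Reg.const z _)).mul (Reg.inv (hnz y hymem hey))).mul
        (Reg.inv (hnz y' hy'mem hey'))
    · have hey' : ¬ e ∣ y'.1 := fun h => hey ((Nat.dvd_add_left h).mp hdvd)
      unfold term
      rw [if_neg hey, if_neg hey', add_zero]
      exact Reg.zero z

end

theorem sum_range_list (n : ℕ) (f : ℕ → RatFunc ℂ) :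
    ((List.range n).map f).sum = ∑ p ∈ Finset.range n, f p := by
  simp [Finset.sum, Finset.range, Multiset.range]

theorem sum_flatMap' {α β : Type*} (l : List α) (g : α → List β) (f : β → RatFunc ℂ) :
    ((l.flatMap g).map f).sum = (l.map (fun a => ((g a).map f).sum)).sum := by
  induction l with
  | nil => simp
  | cons a l ih => rw [List.flatMap_cons, List.map_append, List.sum_append, ih, List.map_cons,
      List.sum_cons]

/-- The three sums. -/
theorem Ze_eq (C : CurveGerm) (e : ℕ) : Ze C.strata e =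
    ∑ p ∈ Finset.range C.G.size, (if e ∣ C.G.N p then
      RatFunc.C ((2 - (C.val p : ℤ) : ℤ) : ℂ) * (1 / L (C.G.N p, C.G.ν p)) else 0) +
    ∑ f ∈ C.G.E, (if e ∣ C.G.N f.1 ∧ e ∣ C.G.N f.2 then
      1 / L (C.G.N f.1, C.G.ν f.1) * (1 / L (C.G.N f.2, C.G.ν f.2)) else 0) +
    ∑ p ∈ Finset.range C.G.size, ((C.B p).map (fun b => if e ∣ C.G.N p ∧ e ∣ b then
      1 / L (C.G.N p, C.G.ν p) * (1 / L (b, 1)) else 0)).sum := by
  unfold Ze CurveGerm.strata
  rw [List.map_append, List.map_append, List.sum_append, List.sum_append, List.map_map,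
    List.map_map, sum_flatMap', sum_range_list, sum_range_list, Finset.sum_map_toList]
  congr 1
  · congr 1
    · refine Finset.sum_congr rfl fun p _ => ?_
      by_cases h : e ∣ C.G.N p
      · simp only [Function.comp, List.mem_singleton, forall_eq, h, if_true, List.map_cons,
          List.map_nil, List.prod_cons, List.prod_nil, mul_one]
        rfl
      · simp only [Function.comp, List.mem_singleton, forall_eq, h, if_false]
    · refine Finset.sum_congr rfl fun f _ => ?_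
      by_cases h : e ∣ C.G.N f.1 ∧ e ∣ C.G.N f.2
      · simp [h, L]
      · have h' : ¬ ∀ q ∈ [(C.G.N f.1, C.G.ν f.1), (C.G.N f.2, C.G.ν f.2)], e ∣ q.1 := by
          simpa using h
        simp only [Function.comp, if_neg h, if_neg h']
  · refine Finset.sum_congr rfl fun p _ => ?_
    rw [List.map_map]
    congr 1
    refine List.map_congr_left fun b _ => ?_
    by_cases h : e ∣ C.G.N p ∧ e ∣ b
    · simp [h, L]
    · have h' : ¬ ∀ q ∈ [(C.G.N p, C.G.ν p), (b, 1)], e ∣ q.1 := by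
        simpa using h
      simp only [Function.comp, if_neg h, if_neg h']

theorem nb_sum (C : CurveGerm) (p : ℕ) (f : ℕ × ℕ → RatFunc ℂ) : ((C.nb p).map f).sum =
    ∑ g ∈ Graph.edges C.G p, f (C.G.N (Graph.oth p g), C.G.ν (Graph.oth p g)) +
      ((C.B p).map (fun b => f (b, 1))).sum := by
  unfold CurveGerm.nb
  rw [Multiset.map_add, Multiset.sum_add, Multiset.map_map, Multiset.map_coe, Multiset.sum_coe,
    List.map_map]
  rfl

end C5

open Finset C5 in
theorem curvePole : CurvePole := by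
  classical
  intro hT hN hV C e he z hz
  by_contra hcon
  push Not at hcon
  obtain ⟨hc1, hc2⟩ := hcon
  have h3 : ∀ p < C.G.size, e ∣ C.G.N p → (C.G.N p : ℂ) * z + C.G.ν p = 0 → C.val p ≤ 2 := by
    intro p hp h1 h2
    by_contra h
    exact hc1 p hp (by omega) h1 h2
  have hbr : ∀ p < C.G.size, ∀ b ∈ C.B p, e ∣ b → (b : ℂ) * z + 1 ≠ 0 := hc2
  refine Reg.denom_ne (?_ : Reg z (Ze C.strata e)) hz
  obtain ⟨-, hE, -, -, -⟩ := hT C.G C.blow
  have hno := noadj C e z hT hN hV h3 hbr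
  have hgr := reg_group C e z hT hN hV h3 hbr
  set S := Finset.range C.G.size with hS
  set T : ℕ × ℕ → RatFunc ℂ := fun f => if e ∣ C.G.N f.1 ∧ e ∣ C.G.N f.2 then
      1 / L (C.G.N f.1, C.G.ν f.1) * (1 / L (C.G.N f.2, C.G.ν f.2)) else 0 with hTdef
  set U1 : ℕ → RatFunc ℂ := fun p => if e ∣ C.G.N p then
      RatFunc.C ((2 - (C.val p : ℤ) : ℤ) : ℂ) * (1 / L (C.G.N p, C.G.ν p)) else 0 with hU1
  set U3 : ℕ → RatFunc ℂ := fun p => ((C.B p).map (fun b => if e ∣ C.G.N p ∧ e ∣ b then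
      1 / L (C.G.N p, C.G.ν p) * (1 / L (b, 1)) else 0)).sum with hU3
  have hZ : Ze C.strata e = ∑ p ∈ S, U1 p + ∑ f ∈ C.G.E, T f + ∑ p ∈ S, U3 p := Ze_eq C e
  set R := S.filter (fun p => InR C e z p) with hR
  have hmemR : ∀ p, p ∈ R ↔ InR C e z p := by
    intro p
    rw [hR, Finset.mem_filter, hS, Finset.mem_range]
    exact ⟨fun h => h.2, fun h => ⟨h.1, h⟩⟩
  -- the edges at `R`
  have hbi : C.G.E.filter (fun f => InR C e z f.1 ∨ InR C e z f.2) =
      R.biUnion (fun p => Graph.edges C.G p) := by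
    ext f
    rw [Finset.mem_filter, Finset.mem_biUnion]
    constructor
    · rintro ⟨hf, h | h⟩
      · exact ⟨f.1, (hmemR _).mpr h, Finset.mem_filter.mpr ⟨hf, Or.inl rfl⟩⟩
      · exact ⟨f.2, (hmemR _).mpr h, Finset.mem_filter.mpr ⟨hf, Or.inr rfl⟩⟩
    · rintro ⟨p, hp, hf⟩
      obtain ⟨hfE, hfp⟩ := Finset.mem_filter.mp hf
      refine ⟨hfE, ?_⟩
      rcases hfp with h | h
      · left
        rw [h]
        exact (hmemR _).mp hp
      · right
        rw [h]
        exact (hmemR _).mp hp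
  have hdisj : (R : Set ℕ).PairwiseDisjoint (fun p => Graph.edges C.G p) := by
    intro p hp q hq hpq
    have hp' := (hmemR p).mp hp
    have hq' := (hmemR q).mp hq
    refine Finset.disjoint_left.mpr ?_
    intro f hf hf'
    have h1 := hno p hp' f hf
    obtain ⟨hfE, hfp⟩ := Finset.mem_filter.mp hf
    obtain ⟨-, hfq⟩ := Finset.mem_filter.mp hf'
    have hlt := (hE f hfE).1
    refine h1 ?_
    rcases hfp with h | h
    · rw [oth_of_fst h]
      rcases hfq with h' | h'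
      · exact absurd (h.symm.trans h') hpq
      · rw [h']; exact hq'
    · rw [oth_of_snd hlt h]
      rcases hfq with h' | h'
      · rw [h']; exact hq'
      · exact absurd (h.symm.trans h') hpq
  have hTterm : ∀ p ∈ R, ∀ f ∈ Graph.edges C.G p,
      T f = term C e p (C.G.N (Graph.oth p f), C.G.ν (Graph.oth p f)) := by
    intro p hp f hf
    have hp' := ((hmemR p).mp hp).2.1
    obtain ⟨hfE, hfp⟩ := Finset.mem_filter.mp hf
    have hlt := (hE f hfE).1
    rcases hfp with h | h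
    · rw [oth_of_fst h]
      simp only [hTdef, term, h, hp', true_and]
    · rw [oth_of_snd hlt h]
      simp only [hTdef, term, h, hp', and_true]
      split_ifs
      · ring
      · rfl
  have hU3term : ∀ p ∈ R, U3 p = ((C.B p).map (fun b => term C e p (b, 1))).sum := by
    intro p hp
    have hp' := ((hmemR p).mp hp).2.1
    simp only [hU3, term, hp', true_and]
  have hU1term : ∀ p ∈ R, U1 p =
      RatFunc.C ((2 - (C.val p : ℤ) : ℤ) : ℂ) * (1 / L (C.G.N p, C.G.ν p)) := by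
    intro p hp
    have hp' := ((hmemR p).mp hp).2.1
    simp only [hU1, hp', if_true]
  have hT2 : ∑ f ∈ C.G.E, T f = ∑ p ∈ R, ∑ f ∈ Graph.edges C.G p, T f +
      ∑ f ∈ C.G.E.filter (fun f => ¬ (InR C e z f.1 ∨ InR C e z f.2)), T f := by
    rw [← Finset.sum_biUnion hdisj, ← hbi, Finset.sum_filter_add_sum_filter_not]
  have hS1 : ∑ p ∈ S, U1 p = ∑ p ∈ R, U1 p + ∑ p ∈ S.filter (fun p => ¬ InR C e z p), U1 p := by
    rw [hR, Finset.sum_filter_add_sum_filter_not]
  have hS3 : ∑ p ∈ S, U3 p = ∑ p ∈ R, U3 p + ∑ p ∈ S.filter (fun p => ¬ InR C e z p), U3 p := by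
    rw [hR, Finset.sum_filter_add_sum_filter_not]
  have hsplit : Ze C.strata e = ∑ p ∈ R, (RatFunc.C ((2 - (C.val p : ℤ) : ℤ) : ℂ) *
        (1 / L (C.G.N p, C.G.ν p)) + ((C.nb p).map (term C e p)).sum) +
      (∑ p ∈ S.filter (fun p => ¬ InR C e z p), U1 p +
        ∑ f ∈ C.G.E.filter (fun f => ¬ (InR C e z f.1 ∨ InR C e z f.2)), T f +
        ∑ p ∈ S.filter (fun p => ¬ InR C e z p), U3 p) := by
    have h1 : ∀ p ∈ R, (RatFunc.C ((2 - (C.val p : ℤ) : ℤ) : ℂ) *
        (1 / L (C.G.N p, C.G.ν p)) + ((C.nb p).map (term C e p)).sum) =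
        U1 p + (∑ f ∈ Graph.edges C.G p, T f + U3 p) := by
      intro p hp
      rw [hU1term p hp, hU3term p hp, nb_sum, Finset.sum_congr rfl (hTterm p hp)]
    rw [Finset.sum_congr rfl h1, Finset.sum_add_distrib, Finset.sum_add_distrib, hZ, hT2, hS1, hS3]
    ring
  rw [hsplit]
  have hL : ∀ p < C.G.size, e ∣ C.G.N p → ¬ InR C e z p →
      Reg z (1 / L (C.G.N p, C.G.ν p)) := by
    intro p hp h1 h2
    refine Reg.inv ?_
    intro h
    exact h2 ⟨hp, h1, h⟩
  refine (Reg.sum _ _ fun p hp => hgr p ((hmemR p).mp hp)).add ((?_ : Reg z _).add ?_)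
  · refine (Reg.sum _ _ fun p hp => ?_).add (Reg.sum _ _ fun f hf => ?_)
    · obtain ⟨hp1, hp2⟩ := Finset.mem_filter.mp hp
      have hp3 := Finset.mem_range.mp hp1
      simp only [hU1]
      split_ifs with h
      · exact (Reg.const z _).mul (hL p hp3 h hp2)
      · exact Reg.zero z
    · obtain ⟨hf1, hf2⟩ := Finset.mem_filter.mp hf
      push Not at hf2
      obtain ⟨h1, h2⟩ := hE f hf1
      simp only [hTdef]
      split_ifs with h
      · exact (hL _ (h1.trans h2) h.1 hf2.1).mul (hL _ h2 h.2 hf2.2)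
      · exact Reg.zero z
  · refine Reg.sum _ _ fun p hp => ?_
    obtain ⟨hp1, hp2⟩ := Finset.mem_filter.mp hp
    have hp3 := Finset.mem_range.mp hp1
    simp only [hU3]
    refine Reg.listSum _ _ fun b hb => ?_
    split_ifs with h
    · refine (hL p hp3 h.1 hp2).mul (Reg.inv ?_)
      simpa using hbr p hp3 b hb h.2
    · exact Reg.zero z

end Comp

end Mono
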